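import Mathlib

/-!
Project MEI (Meissner), row C: the vector field of the flux proof and its bounds.
`F p = (1/2) (9 x / 16, y, w) / D`, `D = 1/4 + x ^ 2 / 8 + y ^ 2 + w ^ 2`, coordinates relative to
the midpoint of the upper edge.
-/

set_option autoImplicit false

namespace Pool.Agent.Helper8.MEI

/-- the denominator -/
noncomputable def DD (x y w : ℝ) : ℝ := 1 / 4 + x ^ 2 / 8 + (y ^ 2 + w ^ 2)

/-- the numerator of the divergence -/
noncomputable def NU (x y w : ℝ) : ℝ := 41 / 128 + 23 / 256 * x ^ 2 + 9 / 32 * (y ^ 2 + w ^ 2)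

/-- the field -/
noncomputable def F1 (x y w : ℝ) : ℝ := 9 / 32 * x / DD x y w
noncomputable def F2 (x y w : ℝ) : ℝ := 1 / 2 * y / DD x y w
noncomputable def F3 (x y w : ℝ) : ℝ := 1 / 2 * w / DD x y w

/-- the divergence -/
noncomputable def divF (x y w : ℝ) : ℝ := NU x y w / DD x y w ^ 2

/-- the region: `r` is the distance from the line of the upper edge -/
def ZZ (x y w : ℝ) : Prop :=
  x ^ 2 + (y ^ 2 + w ^ 2) + √2 * √(y ^ 2 + w ^ 2) ≤ 1 / 4 ∧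
    1 / 4 ≤ x ^ 2 + (y ^ 2 + w ^ 2) + √3 * √(y ^ 2 + w ^ 2)

theorem DD_pos (x y w : ℝ) : 0 < DD x y w := by
  unfold DD
  positivity

theorem DD_ge (x y w : ℝ) : 1 / 4 ≤ DD x y w := by
  unfold DD
  nlinarith [sq_nonneg x, sq_nonneg y, sq_nonneg w]

/-! ### one variable polynomials -/

theorem sqrt2_bd : 1.4142 < √2 ∧ √2 < 1.4143 := by
  constructor
  · rw [Real.lt_sqrt (by norm_num)]
    norm_num
  · rw [Real.sqrt_lt' (by norm_num)]
    norm_num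

theorem sqrt3_bd : 1.732 < √3 ∧ √3 < 1.7321 := by
  constructor
  · rw [Real.lt_sqrt (by norm_num)]
    norm_num
  · rw [Real.sqrt_lt' (by norm_num)]
    norm_num

/-- lower bound -/
theorem lo_bd (q r k : ℝ) (hq : 0 ≤ q) (hr : 0 ≤ r) (hk : 1.4142 < k) (hk2 : k ^ 2 = 2)
    (h : q + r ^ 2 + k * r ≤ 1 / 4) :
    4.32 * (1 / 4 + q / 8 + r ^ 2) ^ 2 ≤ 41 / 128 + 23 / 256 * q + 9 / 32 * r ^ 2 := by
  have hr1 : r ≤ 0.15893 := by
    by_contra hc
    push Not at hc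
    nlinarith
  have hkr : 1.4142 * r ≤ k * r := by nlinarith
  -- monotone in q
  set s : ℝ := 1 / 4 - r ^ 2 - k * r with hs
  have hqs : q ≤ s := by rw [hs]; linarith
  have hs1 : s ≤ 1 / 4 := by rw [hs]; nlinarith
  have h1 : 0 ≤ (s - q) * (4.32 * ((1 / 4 + q / 8 + r ^ 2) + (1 / 4 + s / 8 + r ^ 2)) / 8
      - 23 / 256) := by
    apply mul_nonneg (by linarith)
    nlinarith [sq_nonneg r]
  have h2 : 0 ≤ (41 / 128 + 23 / 256 * s + 9 / 32 * r ^ 2) -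
      4.32 * (1 / 4 + s / 8 + r ^ 2) ^ 2 := by
    have e1 : (41 / 128 + 23 / 256 * s + 9 / 32 * r ^ 2) - 4.32 * (1 / 4 + s / 8 + r ^ 2) ^ 2 =
        351 / 1024 - 4.32 * (81 / 1024) + (4.32 * (9 / 128) - 23 / 256) * (k * r) +
        (49 / 256 - 4.32 * (1 / 64 * k ^ 2 + 63 / 128)) * r ^ 2 + 4.32 * (7 / 32) * (k * r) * r ^ 2
        - 4.32 * (49 / 64) * r ^ 4 := by
      rw [hs]
      ring
    rw [e1, hk2]
    have e2 : 1.4142 * r * r ^ 2 ≤ k * r * r ^ 2 := by nlinarith [sq_nonneg r]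
    nlinarith [mul_nonneg hr (sub_nonneg.2 hr1), mul_nonneg (mul_nonneg hr hr) (sub_nonneg.2 hr1),
      mul_nonneg (mul_nonneg (mul_nonneg hr hr) hr) (sub_nonneg.2 hr1)]
  have e3 : (41 / 128 + 23 / 256 * q + 9 / 32 * r ^ 2) - 4.32 * (1 / 4 + q / 8 + r ^ 2) ^ 2 =
      ((41 / 128 + 23 / 256 * s + 9 / 32 * r ^ 2) - 4.32 * (1 / 4 + s / 8 + r ^ 2) ^ 2) +
      (s - q) * (4.32 * ((1 / 4 + q / 8 + r ^ 2) + (1 / 4 + s / 8 + r ^ 2)) / 8 - 23 / 256) := by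
    ring
  linarith

/-- upper bound -/
theorem hi_bd (q r k : ℝ) (hq : 0 ≤ q) (hr : 0 ≤ r) (hk : k < 1.7321) (hk2 : k ^ 2 = 3)
    (hk0 : 1.732 < k) (h : 1 / 4 ≤ q + r ^ 2 + k * r) (hr1 : r ≤ 0.15893) :
    41 / 128 + 23 / 256 * q + 9 / 32 * r ^ 2 ≤ 4.58 * (1 / 4 + q / 8 + r ^ 2) ^ 2 := by
  have hkr : k * r ≤ 1.7321 * r := by nlinarith
  have hkr' : 1.732 * r ≤ k * r := by nlinarith
  set s : ℝ := 1 / 4 - r ^ 2 - k * r with hs
  have hqs : s ≤ q := by rw [hs]; linarith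
  rcases le_total 0 s with h0 | h0
  · -- compare with q = s
    have hs1 : s ≤ 1 / 4 := by rw [hs]; nlinarith
    have h1 : 0 ≤ (q - s) * (4.58 * ((1 / 4 + q / 8 + r ^ 2) + (1 / 4 + s / 8 + r ^ 2)) / 8
        - 23 / 256) := by
      apply mul_nonneg (by linarith)
      nlinarith [sq_nonneg r]
    have h2 : 0 ≤ 4.58 * (1 / 4 + s / 8 + r ^ 2) ^ 2 -
        (41 / 128 + 23 / 256 * s + 9 / 32 * r ^ 2) := by
      have e1 : 4.58 * (1 / 4 + s / 8 + r ^ 2) ^ 2 - (41 / 128 + 23 / 256 * s + 9 / 32 * r ^ 2) =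
          4.58 * (81 / 1024) - 351 / 1024 - (4.58 * (9 / 128) - 23 / 256) * (k * r) -
          (49 / 256 - 4.58 * (1 / 64 * k ^ 2 + 63 / 128)) * r ^ 2
          - 4.58 * (7 / 32) * (k * r) * r ^ 2 + 4.58 * (49 / 64) * r ^ 4 := by
        rw [hs]
        ring
      rw [e1, hk2]
      have e2 : k * r * r ^ 2 ≤ 1.7321 * r * r ^ 2 := by nlinarith [sq_nonneg r]
      have hr2 : r ≤ 0.134 := by
        by_contra hc
        push Not at hc
        rw [hs] at h0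
        nlinarith
      nlinarith [sq_nonneg (r - 0.1), sq_nonneg (r ^ 2 - 0.01), mul_nonneg hr (sub_nonneg.2 hr2),
        mul_nonneg hr (sq_nonneg (r - 0.1))]
    have e3 : 4.58 * (1 / 4 + q / 8 + r ^ 2) ^ 2 - (41 / 128 + 23 / 256 * q + 9 / 32 * r ^ 2) =
        (4.58 * (1 / 4 + s / 8 + r ^ 2) ^ 2 - (41 / 128 + 23 / 256 * s + 9 / 32 * r ^ 2)) +
        (q - s) * (4.58 * ((1 / 4 + q / 8 + r ^ 2) + (1 / 4 + s / 8 + r ^ 2)) / 8 - 23 / 256) := by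
      ring
    linarith
  · -- compare with q = 0
    have hr2 : 0.1339 ≤ r := by
      by_contra hc
      push Not at hc
      rw [hs] at h0
      nlinarith
    have h1 : 0 ≤ q * (4.58 * ((1 / 4 + q / 8 + r ^ 2) + (1 / 4 + r ^ 2)) / 8 - 23 / 256) := by
      apply mul_nonneg hq
      nlinarith [sq_nonneg r]
    have h2 : 0 ≤ 4.58 * (1 / 4 + r ^ 2) ^ 2 - (41 / 128 + 9 / 32 * r ^ 2) := by
      have h3 : 0.0179 ≤ r ^ 2 := by nlinarith
      nlinarith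
    have e3 : 4.58 * (1 / 4 + q / 8 + r ^ 2) ^ 2 - (41 / 128 + 23 / 256 * q + 9 / 32 * r ^ 2) =
        (4.58 * (1 / 4 + r ^ 2) ^ 2 - (41 / 128 + 9 / 32 * r ^ 2)) +
        q * (4.58 * ((1 / 4 + q / 8 + r ^ 2) + (1 / 4 + r ^ 2)) / 8 - 23 / 256) := by
      ring
    linarith

/-! ### the region -/

theorem ZZ_r {x y w : ℝ} (h : ZZ x y w) : √(y ^ 2 + w ^ 2) ≤ 0.15893 := by
  have h1 := h.1
  have hr := Real.sqrt_nonneg (y ^ 2 + w ^ 2)
  have hs : √(y ^ 2 + w ^ 2) ^ 2 = y ^ 2 + w ^ 2 := Real.sq_sqrt (by positivity)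
  have hk := sqrt2_bd.1
  by_contra hc
  push Not at hc
  nlinarith [sq_nonneg x]

theorem divF_lo {x y w : ℝ} (h : ZZ x y w) : 4.32 ≤ divF x y w := by
  have hs : √(y ^ 2 + w ^ 2) ^ 2 = y ^ 2 + w ^ 2 := Real.sq_sqrt (by positivity)
  have h1 := lo_bd (x ^ 2) (√(y ^ 2 + w ^ 2)) (√2) (sq_nonneg x) (Real.sqrt_nonneg _) sqrt2_bd.1
    (Real.sq_sqrt (by norm_num)) (by rw [hs]; exact h.1)
  rw [hs] at h1
  unfold divF
  rw [le_div_iff₀ (pow_pos (DD_pos x y w) 2)]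
  exact h1

theorem divF_hi {x y w : ℝ} (h : ZZ x y w) : divF x y w ≤ 4.58 := by
  have hs : √(y ^ 2 + w ^ 2) ^ 2 = y ^ 2 + w ^ 2 := Real.sq_sqrt (by positivity)
  have h1 := hi_bd (x ^ 2) (√(y ^ 2 + w ^ 2)) (√3) (sq_nonneg x) (Real.sqrt_nonneg _) sqrt3_bd.2
    (Real.sq_sqrt (by norm_num)) sqrt3_bd.1 (by rw [hs]; exact h.2) (ZZ_r h)
  rw [hs] at h1
  unfold divF
  rw [div_le_iff₀ (pow_pos (DD_pos x y w) 2)]
  exact h1

theorem DD_le {x y w : ℝ} (h : ZZ x y w) : DD x y w ≤ 9 / 32 := by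
  have hs : √(y ^ 2 + w ^ 2) ^ 2 = y ^ 2 + w ^ 2 := Real.sq_sqrt (by positivity)
  have h1 := h.1
  have hr := Real.sqrt_nonneg (y ^ 2 + w ^ 2)
  have hr1 := ZZ_r h
  have hk := sqrt2_bd.1
  unfold DD
  nlinarith

/-! ### (F1) -/

/-- the pointwise identity: `u` a unit vector, `q = p - u` in coordinates relative to the midpoint
of the upper edge -/
theorem F1_id (x y w u1 u2 u3 : ℝ) (hu : u1 ^ 2 + u2 ^ 2 + u3 ^ 2 = 1) :
    F1 x y w * u1 + F2 x y w * u2 + F3 x y w * u3 = 1 / 4 +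
      ((3 / 4 - ((x - u1) ^ 2 + (y - u2) ^ 2 + (w - u3) ^ 2)) + 7 / 8 * x * (x - u1)) /
        (4 * DD x y w) := by
  have hD := DD_pos x y w
  have e1 : F1 x y w * u1 + F2 x y w * u2 + F3 x y w * u3 =
      (9 / 32 * x * u1 + 1 / 2 * y * u2 + 1 / 2 * w * u3) / DD x y w := by
    unfold F1 F2 F3
    ring
  have e2 : 1 / 4 + ((3 / 4 - ((x - u1) ^ 2 + (y - u2) ^ 2 + (w - u3) ^ 2)) +
      7 / 8 * x * (x - u1)) / (4 * DD x y w) = ((DD x y w +
      ((3 / 4 - ((x - u1) ^ 2 + (y - u2) ^ 2 + (w - u3) ^ 2)) + 7 / 8 * x * (x - u1))) / 4) /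
        DD x y w := by
    field_simp
  rw [e1, e2]
  congr 1
  unfold DD
  linear_combination (1 / 4) * hu

/-- lower bound: `B0 = 3/4 - |q - m'| ^ 2`, `gx = -(x - u1)` -/
theorem F1_ge (x y w u1 u2 u3 B0 : ℝ) (hu : u1 ^ 2 + u2 ^ 2 + u3 ^ 2 = 1) (hZ : ZZ x y w)
    (hB : B0 = 3 / 4 - ((x - u1) ^ 2 + (y - u2) ^ 2 + (w - u3) ^ 2)) (hx : |x| ≤ 1 / 2)
    (hg : |x - u1| ≤ B0) :
    1 / 2 * B0 ≤ F1 x y w * u1 + F2 x y w * u2 + F3 x y w * u3 - 1 / 4 := by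
  have hD := DD_pos x y w
  have hB0 : 0 ≤ B0 := (abs_nonneg _).trans hg
  have hD1 := DD_le hZ
  rw [F1_id x y w u1 u2 u3 hu, ← hB, add_sub_cancel_left, le_div_iff₀ (by positivity)]
  have h1 : -(1 / 2 * B0) ≤ x * (x - u1) := by
    have h2 : |x * (x - u1)| ≤ 1 / 2 * B0 := by
      rw [abs_mul]
      exact mul_le_mul hx hg (abs_nonneg _) (by norm_num)
    exact (abs_le.mp h2).1
  nlinarith [mul_le_mul_of_nonneg_left hD1 hB0]

/-! ### derivatives -/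

theorem hasDeriv_x (x y w : ℝ) : HasDerivAt (fun x => F1 x y w)
    (9 / 32 / DD x y w - 9 / 32 * x * (x / 4) / DD x y w ^ 2) x := by
  have hD := DD_pos x y w
  have h1 : HasDerivAt (fun x => DD x y w) (x / 4) x := by
    unfold DD
    have h2 := ((hasDerivAt_pow 2 x).div_const 8).const_add (1 / 4 : ℝ)
    have h3 := h2.add_const (y ^ 2 + w ^ 2)
    refine h3.congr_deriv ?_
    norm_num
    ring
  have h4 : HasDerivAt (fun x : ℝ => 9 / 32 * x) (9 / 32) x := by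
    simpa using (hasDerivAt_id x).const_mul (9 / 32 : ℝ)
  have h5 := h4.div h1 hD.ne'
  refine h5.congr_deriv ?_
  field_simp

theorem hasDeriv_y (x y w : ℝ) : HasDerivAt (fun y => F2 x y w)
    (1 / 2 / DD x y w - 1 / 2 * y * (2 * y) / DD x y w ^ 2) y := by
  have hD := DD_pos x y w
  have h1 : HasDerivAt (fun y => DD x y w) (2 * y) y := by
    unfold DD
    have h2 := ((hasDerivAt_pow 2 y).add_const (w ^ 2)).const_add (1 / 4 + x ^ 2 / 8 : ℝ)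
    refine h2.congr_deriv ?_
    norm_num
  have h4 : HasDerivAt (fun y : ℝ => 1 / 2 * y) (1 / 2) y := by
    simpa using (hasDerivAt_id y).const_mul (1 / 2 : ℝ)
  have h5 := h4.div h1 hD.ne'
  refine h5.congr_deriv ?_
  field_simp

theorem hasDeriv_w (x y w : ℝ) : HasDerivAt (fun w => F3 x y w)
    (1 / 2 / DD x y w - 1 / 2 * w * (2 * w) / DD x y w ^ 2) w := by
  have hD := DD_pos x y w
  have h1 : HasDerivAt (fun w => DD x y w) (2 * w) w := by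
    unfold DD
    have h2 := ((hasDerivAt_pow 2 w).const_add (y ^ 2)).const_add (1 / 4 + x ^ 2 / 8 : ℝ)
    refine h2.congr_deriv ?_
    norm_num
  have h4 : HasDerivAt (fun w : ℝ => 1 / 2 * w) (1 / 2) w := by
    simpa using (hasDerivAt_id w).const_mul (1 / 2 : ℝ)
  have h5 := h4.div h1 hD.ne'
  refine h5.congr_deriv ?_
  field_simp

/-- the sum of the three partial derivatives -/
theorem divF_eq (x y w : ℝ) :
    (9 / 32 / DD x y w - 9 / 32 * x * (x / 4) / DD x y w ^ 2) +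
    (1 / 2 / DD x y w - 1 / 2 * y * (2 * y) / DD x y w ^ 2) +
    (1 / 2 / DD x y w - 1 / 2 * w * (2 * w) / DD x y w ^ 2) = divF x y w := by
  have hD := DD_pos x y w
  unfold divF
  have h1 : ∀ a b : ℝ, a / DD x y w - b / DD x y w ^ 2 = (a * DD x y w - b) / DD x y w ^ 2 := by
    intro a b
    field_simp
  rw [h1, h1, h1, ← add_div, ← add_div]
  congr 1
  unfold DD NU
  ring

/-! ### (F3) -/

/-- the divergence of `F~ = 4 (w + 1/√2) F` is `4 (w + 1/√2) div F + 2 w / D` -/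
theorem divFt_ge {x y w : ℝ} (hZ : ZZ x y w) (hw : 0 ≤ w) :
    12.2 ≤ 4 * (w + 1 / √2) * divF x y w + 2 * w / DD x y w := by
  have h1 := divF_lo hZ
  have hD := DD_pos x y w
  have h2 : 0 ≤ 2 * w / DD x y w := by positivity
  have h3 : 0.707 < 1 / √2 := by
    rw [lt_div_iff₀ (by positivity)]
    have := sqrt2_bd.2
    nlinarith
  nlinarith [mul_nonneg hw (sub_nonneg.2 h1)]

end Pool.Agent.Helper8.MEI
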