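import Pool.Agent.Helper93.MEI.Side

/-!
# Project MEI (M2): the face density, certificate chosen according to `δ = ‖a 0 - q‖²`

Load `(L, m; M1, M2, M3)`: `L + m δ ≤ 2 Σ M_k y_k(q)`, `M_k ≤ b_k(p)`.  For `δ ≤ w0` the load is
used, for `δ ≥ w0` the strip bound (concave in `√δ`).  No residual condition is needed.
-/

namespace Helper8.MEI

open Set Metric Helper80.CW Helper14.CW Helper93.MEI
open scoped RealInnerProductSpace

/-- algebra: `φ r = r (s - K r)` on `[r0, C]` is at least the minimum of its end values -/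
theorem concave_ends {s K r0 r C : ℝ} (hK : 0 ≤ K) (h0 : r0 ≤ r) (h1 : r ≤ C) :
    min (r0 * (s - K * r0)) (C * (s - K * C)) ≤ r * (s - K * r) := by
  rcases le_total (K * (r + r0)) s with h | h
  · refine (min_le_left _ _).trans ?_
    nlinarith [mul_nonneg (sub_nonneg.2 h0) (sub_nonneg.2 h)]
  · refine (min_le_right _ _).trans ?_
    have h2 : K * (r + r0) ≤ K * (r + C) := mul_le_mul_of_nonneg_left (by linarith) hK
    nlinarith [mul_nonneg (sub_nonneg.2 h1) (sub_nonneg.2 (h.trans h2))]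

section gram
variable {a : Fin 4 → E3} (h : Gram4 (al a))
include h

/-- **split lemma** -/
theorem split_load {p q : E3} {A κ v μ w0 L m M1 M2 M3 c : ℝ} (hA : 0 < A) (hκ : 0 ≤ κ)
    (hw0 : 0 ≤ w0) (hw0v : w0 ≤ v) (hv' : v ≤ 0.2) (hμ : 0 ≤ μ) (hq : Pl a q)
    (hpq : ‖p - q‖ = 1) (hb0 : bar a 0 p ≤ 0)
    (h1 : μ ≤ bar a 1 p) (h2 : μ ≤ bar a 2 p) (h3 : μ ≤ bar a 3 p)
    (v1 : Qv a 1 q ≤ v) (v2 : Qv a 2 q ≤ v) (v3 : Qv a 3 q ≤ v) (hδ : ‖a 0 - q‖ ^ 2 ≤ 1.2)
    (hM1 : M1 ≤ bar a 1 p) (hM2 : M2 ≤ bar a 2 p) (hM3 : M3 ≤ bar a 3 p)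
    (hL : L + m * ‖a 0 - q‖ ^ 2 ≤
      2 * (M1 * yv a 0 1 q + M2 * yv a 0 2 q + M3 * yv a 0 3 q))
    (hc0 : 0 ≤ c) (hc : A * (1 - m) + κ ≤ c) :
    min (A * L - c * w0) (min (2 * A * μ * √(2 / 3 * w0) - (A + κ) * w0)
      (2 * A * μ * √(2 / 3 * v) - (A + κ) * v)) - κ * pp (‖a 0 - q‖ ^ 2 - v) ≤
      A * Qv a 0 p - κ * ‖a 0 - q‖ ^ 2 := by
  have hv : 0 ≤ v := hw0.trans hw0v
  have e0 := face_id h p q
  rw [hpq] at e0
  have hd := norm_d_sq h q
  have hb := bar_sum h p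
  rw [Qv_yv h (by decide) q] at v1 v2 v3
  have y1 := yv_nonneg hq (i := 0) (j := 1) (by decide)
  have y2 := yv_nonneg hq (i := 0) (j := 2) (by decide)
  have y3 := yv_nonneg hq (i := 0) (j := 3) (by decide)
  have hδ0 : 0 ≤ ‖a 0 - q‖ ^ 2 := by positivity
  have hle := delta_le_sq h hq
  set δ := ‖a 0 - q‖ ^ 2 with hδdef
  set Y1 := yv a 0 1 q
  set Y2 := yv a 0 2 q
  set Y3 := yv a 0 3 q
  set B1 := bar a 1 p
  set B2 := bar a 2 p
  set B3 := bar a 3 p
  have hQ : Qv a 0 p = 2 * (B1 * Y1 + B2 * Y2 + B3 * Y3) - δ := by linarith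
  rw [hQ]
  have hP : M1 * Y1 + M2 * Y2 + M3 * Y3 ≤ B1 * Y1 + B2 * Y2 + B3 * Y3 := by
    have := mul_le_mul_of_nonneg_right hM1 y1
    have := mul_le_mul_of_nonneg_right hM2 y2
    have := mul_le_mul_of_nonneg_right hM3 y3
    linarith
  have hc2 : √(2 / 3 * v) ^ 2 = 2 / 3 * v := Real.sq_sqrt (by positivity)
  have hc0' : 0 ≤ √(2 / 3 * v) := Real.sqrt_nonneg _
  obtain ⟨C, hC⟩ : ∃ C, C = √(2 / 3 * v) := ⟨_, rfl⟩
  rw [← hC] at hc2 hc0' ⊢
  obtain ⟨r0, hr0⟩ : ∃ r0, r0 = √(2 / 3 * w0) := ⟨_, rfl⟩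
  have hr02 : r0 ^ 2 = 2 / 3 * w0 := by rw [hr0]; exact Real.sq_sqrt (by positivity)
  rw [← hr0]
  rcases le_total δ w0 with hdw | hdw
  · -- the load
    have e1 : pp (δ - v) = 0 := by
      unfold pp
      exact max_eq_right (by linarith)
    rw [e1, mul_zero, sub_zero]
    refine (min_le_left _ _).trans ?_
    have g1 : A * (L + m * δ) ≤ A * (2 * (B1 * Y1 + B2 * Y2 + B3 * Y3)) :=
      mul_le_mul_of_nonneg_left (by linarith) hA.le
    have g2 : (A * (1 - m) + κ) * δ ≤ c * δ := mul_le_mul_of_nonneg_right hc hδ0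
    have g3 : c * δ ≤ c * w0 := mul_le_mul_of_nonneg_left hdw hc0
    linarith
  rcases le_total δ v with hdv | hdv
  · -- the strip bound
    have e1 : pp (δ - v) = 0 := by
      unfold pp
      exact max_eq_right (by linarith)
    rw [e1, mul_zero, sub_zero]
    refine (min_le_right _ _).trans ?_
    obtain ⟨S, hS⟩ : ∃ S, S = Y1 + Y2 + Y3 := ⟨_, rfl⟩
    have hS0 : 0 ≤ S := by rw [hS]; positivity
    have hm : μ * S ≤ B1 * Y1 + B2 * Y2 + B3 * Y3 := by
      have := mul_le_mul_of_nonneg_right h1 y1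
      have := mul_le_mul_of_nonneg_right h2 y2
      have := mul_le_mul_of_nonneg_right h3 y3
      rw [hS]
      linarith
    rw [← hS] at hle
    obtain ⟨r, hr⟩ : ∃ r, r = √(2 / 3 * δ) := ⟨_, rfl⟩
    have hr0' : 0 ≤ r := by rw [hr]; exact Real.sqrt_nonneg _
    have hr2 : r ^ 2 = 2 / 3 * δ := by rw [hr]; exact Real.sq_sqrt (by positivity)
    have hrS : r ≤ S := by
      rw [hr]
      exact Real.sqrt_le_iff.2 ⟨hS0, by linarith⟩
    have hrC : r ≤ C := by
      rw [hr, hC]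
      exact Real.sqrt_le_sqrt (by linarith)
    have hrr0 : r0 ≤ r := by
      rw [hr, hr0]
      exact Real.sqrt_le_sqrt (by linarith)
    have k1 : 2 * A * (μ * r) ≤ 2 * A * (B1 * Y1 + B2 * Y2 + B3 * Y3) := by
      apply mul_le_mul_of_nonneg_left _ (by positivity)
      exact (mul_le_mul_of_nonneg_left hrS hμ).trans hm
    have k2 : δ = 3 / 2 * r ^ 2 := by linarith
    have k3 : v = 3 / 2 * C ^ 2 := by linarith
    have k4 : w0 = 3 / 2 * r0 ^ 2 := by linarith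
    have key := concave_ends (s := 2 * A * μ) (K := (A + κ) * (3 / 2)) (by positivity) hrr0 hrC
    have t1 : r0 * (2 * A * μ - (A + κ) * (3 / 2) * r0) = 2 * A * μ * r0 - (A + κ) * w0 := by
      rw [k4]; ring
    have t2 : C * (2 * A * μ - (A + κ) * (3 / 2) * C) = 2 * A * μ * C - (A + κ) * v := by
      rw [k3]; ring
    have t3 : r * (2 * A * μ - (A + κ) * (3 / 2) * r) = 2 * A * μ * r - (A + κ) * δ := by
      rw [k2]; ring
    rw [t1, t2, t3] at key
    linarith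
  · -- beyond `v`
    have e1 : pp (δ - v) = δ - v := by
      unfold pp
      exact max_eq_left (by linarith)
    rw [e1]
    have hmin : min (A * L - c * w0) (min (2 * A * μ * r0 - (A + κ) * w0)
        (2 * A * μ * C - (A + κ) * v)) ≤ 2 * A * μ * C - (A + κ) * v :=
      (min_le_right _ _).trans (min_le_right _ _)
    obtain ⟨n, hn⟩ : ∃ n, n = (δ - v) / 2 := ⟨_, rfl⟩
    have hn0 : 0 ≤ n := by rw [hn]; linarith
    have z1 : 0 ≤ Y1 - n := by rw [hn]; linarith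
    have z2 : 0 ≤ Y2 - n := by rw [hn]; linarith
    have z3 : 0 ≤ Y3 - n := by rw [hn]; linarith
    obtain ⟨S, hS⟩ : ∃ S, S = (Y1 - n) + (Y2 - n) + (Y3 - n) := ⟨_, rfl⟩
    have hS0 : 0 ≤ S := by rw [hS]; positivity
    have hsum : n + μ * S ≤ B1 * Y1 + B2 * Y2 + B3 * Y3 := by
      have g1 := mul_le_mul_of_nonneg_right h1 z1
      have g2 := mul_le_mul_of_nonneg_right h2 z2
      have g3 := mul_le_mul_of_nonneg_right h3 z3
      have g4 : n * 1 ≤ n * (B1 + B2 + B3) := mul_le_mul_of_nonneg_left (by linarith) hn0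
      rw [hS]
      linarith
    have hdS : v + 2 * n ≤ 3 / 2 * n ^ 2 + n * S + 3 / 2 * S ^ 2 := by
      have : v + 2 * n = δ := by rw [hn]; ring
      rw [this, hd, hS]
      nlinarith [mul_nonneg z1 z2, mul_nonneg z1 z3, mul_nonneg z2 z3]
    have hn6 : n ≤ 0.6 := by rw [hn]; linarith
    have hCS : C ≤ S := by
      by_contra hcon
      push Not at hcon
      have hC4 : C ≤ 0.4 := by nlinarith
      have t1 : S * S < C * C := mul_self_lt_mul_self hS0 hcon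
      have t2 : n * S ≤ n * 0.4 := mul_le_mul_of_nonneg_left (by linarith) hn0
      have t3 : n * n ≤ n * 0.6 := mul_le_mul_of_nonneg_left hn6 hn0
      rw [pow_two] at hc2 hdS
      rw [pow_two] at hdS
      linarith
    have g5 : μ * C ≤ μ * S := mul_le_mul_of_nonneg_left hCS hμ
    have g6 : 2 * A * (n + μ * C) ≤ 2 * A * (B1 * Y1 + B2 * Y2 + B3 * Y3) :=
      mul_le_mul_of_nonneg_left (by linarith) (by positivity)
    have g7 : δ = v + 2 * n := by rw [hn]; ring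
    rw [g7]
    have e3 : v + 2 * n - v = 2 * n := by ring
    rw [e3]
    linarith

end gram

end Helper8.MEI
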